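import Pool.Agent.Results.MP_04d4af_lc.NoBox
import Pool.Agent.TH39.TwoCol

/-!
The cube-in-cube relation at a successor cardinal: for every infinite `κ` the relation
`cic(κ⁺, κ, 2)` fails in ZFC, and for `κ = ℵ₀` two is exactly the number of colours which cannot be
avoided: every colouring of `ω₁ × ω₁ × ω₁` with finitely many colours takes at most two values on
some product of three sets of order type `ω`.
-/

set_option autoImplicit false

open Cardinal Order Ordinal

universe u

namespace Pool.Agent.Results.MP_c1dc0e_lc.ExactlyTwoColours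

/-- The set `H` of elements of the well-order `W` has order type `τ`. -/
def HasOrderType {W : Type u} [LinearOrder W] [WellFoundedLT W] (H : Set W) (τ : Ordinal.{u}) :
    Prop :=
  Ordinal.type (fun x y : H => x < y) = τ

/-- `cic(κ, τ, θ)`: every `c : κ × κ × κ → θ` is constant on `H × I × J` for some `H, I, J ⊆ κ` of
order type `τ`. The cardinals `κ` and `θ` are represented by the well-orders `κ.ord.ToType` and
`θ.ord.ToType` of that order type. -/
def Cic (κ : Cardinal.{u}) (τ : Ordinal.{u}) (θ : Cardinal.{u}) : Prop :=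
  ∀ c : κ.ord.ToType → κ.ord.ToType → κ.ord.ToType → θ.ord.ToType,
    ∃ H I J : Set κ.ord.ToType, HasOrderType H τ ∧ HasOrderType I τ ∧ HasOrderType J τ ∧
      ∃ k, ∀ x ∈ H, ∀ y ∈ I, ∀ z ∈ J, c x y z = k

/-- Every colouring of `κ × κ × κ` with `t` colours takes at most two values on `H × I × J` for
some `H, I, J ⊆ κ` of order type `τ`. -/
def TwoColourBox (κ : Cardinal.{u}) (τ : Ordinal.{u}) (t : ℕ) : Prop :=
  ∀ c : κ.ord.ToType → κ.ord.ToType → κ.ord.ToType → Fin t,
    ∃ H I J : Set κ.ord.ToType, HasOrderType H τ ∧ HasOrderType I τ ∧ HasOrderType J τ ∧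
      ∃ p q, ∀ x ∈ H, ∀ y ∈ I, ∀ z ∈ J, c x y z = p ∨ c x y z = q

theorem card_of_type {W : Type u} [LinearOrder W] [WellFoundedLT W] {H : Set W} {κ : Cardinal.{u}}
    (h : HasOrderType H κ.ord) : #H = κ := by
  have h1 := congrArg Ordinal.card h
  rw [Ordinal.card_type, Cardinal.card_ord] at h1
  exact h1

theorem not_cic (κ : Cardinal.{u}) (hκ : ℵ₀ ≤ κ) : ¬ Cic (succ κ) κ.ord 2 := by
  intro h
  have hW : #((succ κ).ord.ToType) = succ κ := Cardinal.mk_ord_toType _
  obtain ⟨c, hc⟩ := Pool.Agent.Results.MP_04d4af_lc.NoBox.result κ hκ _ _ _ hW hW hW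
  have h2 : #(ULift.{u} (Fin 2)) = #((2 : Cardinal.{u}).ord.ToType) := by
    rw [Cardinal.mk_ord_toType]
    simp
  obtain ⟨φ⟩ := Cardinal.eq.1 h2
  obtain ⟨H, I, J, hH, hI, hJ, k, hk⟩ := h fun x y z => φ (ULift.up (c (x, y, z)))
  refine hc (φ.symm k).down H I J (card_of_type hH) (card_of_type hI) (card_of_type hJ) ?_
  intro x hx y hy z hz
  rw [← hk x hx y hy z hz, Equiv.symm_apply_apply]

theorem type_range {W : Type u} [LinearOrder W] [WellFoundedLT W] {f : ℕ → W}
    (hf : StrictMono f) : HasOrderType (Set.range f) ω := by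
  unfold HasOrderType
  have e : Nonempty ((fun x y : Set.range f => x < y) ≃r (fun x y : ℕ => x < y)) :=
    ⟨(StrictMono.orderIso f hf).symm.toRelIsoLT⟩
  have h := Ordinal.lift_type_eq.{u, 0, 0}.2 e
  rw [Ordinal.lift_uzero] at h
  rw [h]
  rfl

theorem box_aux {W : Type u} [LinearOrder W] [WellFoundedLT W] (hW : #W = ℵ₁)
    (hIio : ∀ z : W, #(Set.Iio z) < ℵ₁) (t : ℕ) (c : W → W → W → Fin t) :
    ∃ H I J : Set W, HasOrderType H ω ∧ HasOrderType I ω ∧ HasOrderType J ω ∧
      ∃ p q, ∀ x ∈ H, ∀ y ∈ I, ∀ z ∈ J, c x y z = p ∨ c x y z = q := by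
  have hunc : ¬ Countable W := by
    intro h
    have := Cardinal.mk_le_aleph0_iff.2 h
    rw [hW] at this
    exact absurd this (not_le.2 Cardinal.aleph0_lt_aleph_one)
  have hseg : ∀ z : W, (Set.Iic z).Countable := by
    intro z
    have h1 : #(Set.Iio z) ≤ ℵ₀ :=
      Order.lt_succ_iff.1 (by rw [Cardinal.succ_aleph0]; exact hIio z)
    rw [Cardinal.mk_le_aleph0_iff] at h1
    have h2 : Set.Iic z = insert z (Set.Iio z) := Set.Iio_insert.symm
    rw [h2]
    exact Set.Countable.insert z h1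
  have hmax : NoMaxOrder W := by
    constructor
    intro a
    by_contra hcon
    push Not at hcon
    apply hunc
    rw [← Set.countable_univ_iff]
    exact (hseg a).mono fun x _ => hcon x
  have hne : Nonempty W := by
    by_contra h
    rw [not_nonempty_iff] at h
    exact hunc inferInstance
  obtain ⟨ι, hι⟩ := Nat.exists_strictMono W
  obtain ⟨a, b, g, ha, hb, hg, p, q, hpq⟩ :=
    TH39.TwoCol.main hunc hseg (fun i k z => c (ι i) (ι k) z)
  refine ⟨Set.range (ι ∘ a), Set.range (ι ∘ b), Set.range g, type_range (hι.comp ha),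
    type_range (hι.comp hb), type_range hg, p, q, ?_⟩
  rintro _ ⟨i, rfl⟩ _ ⟨k, rfl⟩ _ ⟨j, rfl⟩
  exact hpq i k j

theorem twoColourBox (t : ℕ) : TwoColourBox (ℵ₁ : Cardinal.{u}) ω t := fun c =>
  box_aux (Cardinal.mk_ord_toType _) (fun z => Cardinal.mk_Iio_toType_ord_lt z) t c

/-- (1) For every infinite cardinal `κ` the relation `cic(κ⁺, κ, 2)` fails: some colouring of
`κ⁺ × κ⁺ × κ⁺` with two colours takes both colours on every product of three sets of order type `κ`.
(2) Two is the exact number of colours for `κ = ℵ₀`: for every finite `t`, every colouring of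
`ω₁ × ω₁ × ω₁` with `t` colours takes at most two values on a product of three sets of order type
`ω`. -/
theorem result :
    (∀ κ : Cardinal.{u}, ℵ₀ ≤ κ → ¬ Cic (succ κ) κ.ord 2) ∧
    (∀ t : ℕ, TwoColourBox (ℵ₁ : Cardinal.{u}) ω t) :=
  ⟨not_cic, twoColourBox⟩

end Pool.Agent.Results.MP_c1dc0e_lc.ExactlyTwoColours
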